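import Pool.Agent.H72.Malc4

set_option autoImplicit false

namespace Pool.Agent.Results.MP_e5a626_al.NotClosed

open H72.Malc

/-- The group `F₃ × ℤ` is Malcev coherent, while its monoid free product with the free monoid
of rank two is group-embeddable but not Malcev coherent. -/
theorem result :
    MalcevCoherent (FreeGroup (Fin 3) × Multiplicative ℤ) ∧
    GroupEmbeddable (Monoid.Coprod (FreeMonoid (Fin 2)) (FreeGroup (Fin 3) × Multiplicative ℤ)) ∧
    ¬ MalcevCoherent
      (Monoid.Coprod (FreeMonoid (Fin 2)) (FreeGroup (Fin 3) × Multiplicative ℤ)) := by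
  classical
  refine ⟨?_, pp_emb, fun h => Cex.not_fin (h _ ⟨Finset.univ.image Cex.φ, by simp⟩)⟩
  refine mc_of_emb (MonoidHom.id _) Function.injective_id (fun A _ φ => mp_main _ _ ?_ ?_ A φ)
  · exact ⟨⊤, inferInstance, IsFreeGroup.ofMulEquiv Subgroup.topEquiv.symm⟩
  · exact ⟨⊤, inferInstance, inferInstance⟩

end Pool.Agent.Results.MP_e5a626_al.NotClosed
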